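import Pool.Agent.Helper35.HC.StG
import Pool.Agent.Helper97.HSF.M_HFI

/-!
# Project HC (MP_925021_gt), module FT3: finite time, in the sphere
-/

set_option autoImplicit false

namespace Helper29.HC

open Helper35.HC Helper35.HSF Helper35.MS Helper35.PI Helper35.PI2 Helper32.CL
open Helper97.HSF (rr_sgN tmN_sgN sgN_lt sgN_zero ISN_sgN sqrt_e kap xdiff err1)
open scoped ContDiff Manifold Topology ENNReal BigOperators
open MeasureTheory Set Filter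

theorem ft3_i {V : Type} [NormedAddCommGroup V] [NormedSpace ℝ V] (y x g : V)
    (r R κ σ ε : ℝ) (hr : 0 < r) (hκ0 : 0 < κ) (hκ1 : κ ≤ 1) (hκ : 1 - κ ≤ σ ^ 2)
    (hσ0 : 0 < σ) (hσ1 : σ ≤ 1) (hε : 0 ≤ ε) (hg : ‖g‖ = 1)
    (hx : ‖(r⁻¹ - R) • x‖ ≤ σ ^ 2 / 2)
    (h : ‖(1 / (r * κ * σ)) • (r • y - x) - g‖ ≤ ε) :
    ‖(1 / σ) • (y - R • x) - g‖ ≤ ε + 3 / 2 * σ := by
  have hp : 0 < r * κ * σ := by positivity
  have h1 : ‖r • y - x - (r * κ * σ) • g‖ ≤ ε * (r * κ * σ) := by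
    have e : r • y - x - (r * κ * σ) • g =
        (r * κ * σ) • ((1 / (r * κ * σ)) • (r • y - x) - g) := by
      rw [smul_sub, smul_smul, mul_one_div_cancel hp.ne', one_smul]
    rw [e, norm_smul, Real.norm_of_nonneg hp.le, mul_comm ε]
    exact mul_le_mul_of_nonneg_left h hp.le
  have h2 := err1 y x g r R κ σ ε hr hκ0.le hκ1 hκ hσ0.le hσ1 hε hg hx h1
  have e : (1 / σ) • (y - R • x) - g = (1 / σ) • (y - R • x - σ • g) := by
    rw [smul_sub _ (y - R • x), smul_smul, one_div_mul_cancel hσ0.ne', one_smul]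
  rw [e, norm_smul, Real.norm_of_nonneg (by positivity), one_div, inv_mul_le_iff₀ hσ0]
  linarith

theorem ft3_j (u r κ d Θ K : ℝ) (hu : 0 ≤ u) (hd : d = r ^ 2 * κ ^ 2 * u) (hκ0 : 1 / 2 ≤ κ)
    (hΘ : 0 ≤ Θ) (h : d * Θ ≤ K) : u * (r ^ 2 * Θ) ≤ 4 * K := by
  have h3 : (1 : ℝ) / 4 ≤ κ ^ 2 := by nlinarith
  have h4 : 0 ≤ u * (r ^ 2 * Θ) := by positivity
  have h5 := mul_le_mul_of_nonneg_right h3 h4
  have e : d * Θ = κ ^ 2 * (u * (r ^ 2 * Θ)) := by rw [hd]; ring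
  linarith

theorem ft3_k (n u r κ σ d Y K : ℝ) (hn : 0 < n) (hσ : σ ^ 2 = 2 * n * u)
    (hd : d = r ^ 2 * κ ^ 2 * u) (hκ0 : 1 / 2 ≤ κ) (hκ1 : κ ≤ 1) (hκ : 1 - κ ≤ σ ^ 2)
    (h : |2 / n * (d * Y) - 1| ≤ K) :
    |2 / n * (u * (r ^ 2 * Y - n ^ 2)) - 1| ≤ 4 * K + 9 * σ ^ 2 := by
  obtain ⟨w, hw⟩ : ∃ w, w = 2 / n * (u * (r ^ 2 * Y)) := ⟨_, rfl⟩
  have e1 : 2 / n * (u * (r ^ 2 * Y - n ^ 2)) = w - σ ^ 2 := by
    rw [hσ, hw]
    field_simp
  have e2 : 2 / n * (d * Y) = κ ^ 2 * w := by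
    rw [hd, hw]
    ring
  rw [e2] at h
  rw [e1]
  have h1 : |w - 1| ≤ 4 * K + 8 * σ ^ 2 := by
    have e3 : κ ^ 2 * (w - 1) = (κ ^ 2 * w - 1) + (1 - κ ^ 2) := by ring
    have h2 : |κ ^ 2 * (w - 1)| ≤ K + 2 * σ ^ 2 := by
      rw [e3]
      refine (abs_add_le _ _).trans (add_le_add h ?_)
      rw [abs_of_nonneg (by nlinarith)]
      nlinarith
    rw [abs_mul, abs_of_nonneg (sq_nonneg κ)] at h2
    have h3 : (1 : ℝ) / 4 ≤ κ ^ 2 := by nlinarith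
    have h4 := mul_le_mul_of_nonneg_right h3 (abs_nonneg (w - 1))
    linarith
  have h4 : |w - σ ^ 2 - 1| ≤ |w - 1| + σ ^ 2 := by
    have e : w - σ ^ 2 - 1 = (w - 1) + (-σ ^ 2) := by ring
    rw [e]
    refine (abs_add_le _ _).trans ?_
    rw [abs_neg, abs_of_nonneg (sq_nonneg σ)]
  linarith

/-- **FT3**. -/
theorem hFT3 (hCN3 : StCN3) (hRIN : StRIN) (hRPD : StRPD) (hRNT : StRNT) (hHSN : StHSN)
    (hCTN : StCTN) : StFT3 := by
  intro n hn3 M _ _ _ _ _ _ F T hT hS hP hunb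
  have hn1 : 1 ≤ n := by omega
  have hn2 : 2 ≤ n := by omega
  have hnR : (1 : ℝ) ≤ n := by exact_mod_cast hn1
  have hn0 : (0 : ℝ) < n := by linarith
  obtain ⟨TE, hTE⟩ : ∃ TE, TE = sgN n T := ⟨_, rfl⟩
  have hIS : ISN n TE = Ico 0 T := by rw [hTE]; exact ISN_sgN n hn1 T
  have hTE0 : 0 < TE := by
    rw [hTE, ← sgN_zero n, sgN_lt n hn1]
    exact hT
  have hTE1 : 2 * n * TE < 1 := by
    have h1 := rr_sgN n hn1 T
    unfold rr at h1
    have h2 := Real.exp_pos (-(2 * n * T))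
    rw [← h1] at h2
    rw [hTE]
    linarith
  have hS' : SMCF n (ISN n TE) F := by rw [hIS]; exact hS
  have hud : UniqueDiffOn ℝ (Ico 0 T) := uniqueDiffOn_Ico 0 T
  obtain ⟨cK, E, D, B, c, l₁, t₁, hHK, ht₁, hl0, hl1, hRg⟩ :=
    hRIN n hn3 M F TE hTE0 hTE1.le hS' hP
  obtain ⟨hfl, hC⟩ := hCN3 n hn1 M F TE hTE0 hTE1.le hS'
  obtain ⟨hfr, hcont⟩ := hCTN n (n + 3) M (Ico 0 T) F hS
  obtain ⟨-, -, hAc⟩ := hcont hud
  -- the sphere
  have hsph : ∀ t ∈ Ico 0 T, ∀ q,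
      ‖HS (n := n) F q t‖ ^ 2 = ‖HH (n := n) F q t‖ ^ 2 - n ^ 2 ∧
      hS2 (n := n) F q t = AA (n := n) F q t - n ∧ 0 ≤ hS2 (n := n) F q t ∧
      ‖HS (n := n) F q t‖ ^ 2 ≤ n * hS2 (n := n) F q t := by
    intro t ht q
    obtain ⟨hI, hE⟩ := hfr t ht
    obtain ⟨-, -, a3, a4, a5, a6⟩ := hHSN n (n + 3) hn1 M univ (fun q (_ : ℝ) => F q t) hI 0
      (mem_univ _) (fun q => hS.sph q t ht) q
    obtain ⟨b1, b2, b4, b5⟩ := hE q 0
    rw [b4, b1] at a3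
    rw [b5, b2] at a4
    rw [b5] at a5
    rw [b4, b5] at a6
    exact ⟨a3, a4, a5, a6⟩
  -- the rescaled flow
  have hpt : ∀ t ∈ Ico 0 T, sgN n t ∈ Ico 0 TE ∧
      (∀ q, FEN n F q (sgN n t) = Real.exp (-(n * t)) • F q t) ∧
      ∀ q, AA (n := n) (FEN n F) q (sgN n t) = AA (n := n) F q t / Real.exp (-(2 * n * t)) ∧
        ‖HH (n := n) (FEN n F) q (sgN n t)‖ ^ 2 =
          ‖HH (n := n) F q t‖ ^ 2 / Real.exp (-(2 * n * t)) ∧
        thN n (FEN n F) q (sgN n t) = thN n F q t / Real.exp (-(2 * n * t)) := by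
    intro t ht
    have hmem : sgN n t ∈ Ico 0 TE := by
      rw [hTE]
      refine ⟨?_, (sgN_lt n hn1).2 ht.2⟩
      rcases eq_or_lt_of_le ht.1 with h | h
      · rw [← h, sgN_zero]
      · rw [← sgN_zero n]
        exact ((sgN_lt n hn1).2 h).le
    refine ⟨hmem, ?_, ?_⟩
    · intro q
      unfold FEN
      rw [rr_sgN n hn1, tmN_sgN n hn1, sqrt_e]
    · intro q
      obtain ⟨-, -, -, h4⟩ := hC (sgN n t) hmem
      obtain ⟨h5, h6, h7, -⟩ := h4 q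
      rw [rr_sgN n hn1, tmN_sgN n hn1] at h5 h6 h7
      exact ⟨h5, h6, h7⟩
  -- unbounded
  have hUnb : ∀ C t₀ : ℝ, t₀ < TE → ∃ t ∈ Ioo 0 TE, t₀ < t ∧ ∃ q,
      C < AA (n := n) (FEN n F) q t := by
    intro C τ₀ hτ₀
    obtain ⟨τ₁, hτ₁⟩ : ∃ τ₁, τ₁ = max τ₀ (TE / 2) := ⟨_, rfl⟩
    have hτ₁m : τ₁ ∈ Ico 0 TE := by
      rw [hτ₁]
      refine ⟨le_trans (by positivity) (le_max_right _ _), max_lt hτ₀ (by linarith)⟩
    have hτ₁0 : 0 < τ₁ := by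
      rw [hτ₁]
      exact lt_of_lt_of_le (by positivity) (le_max_right _ _)
    have hτ₀₁ : τ₀ ≤ τ₁ := by rw [hτ₁]; exact le_max_left _ _
    obtain ⟨h1, h2, -⟩ := hC τ₁ hτ₁m
    rw [hIS] at h1
    obtain ⟨s₁, hs₁⟩ : ∃ s₁, s₁ = tmN n τ₁ := ⟨_, rfl⟩
    rw [← hs₁] at h1 h2
    have hcomp : IsCompact ((univ : Set M) ×ˢ Icc 0 s₁) := isCompact_univ.prod isCompact_Icc
    have hsub : (univ : Set M) ×ˢ Icc 0 s₁ ⊆ univ ×ˢ Ico 0 T := by
      intro z hz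
      exact ⟨mem_univ _, hz.2.1, lt_of_le_of_lt hz.2.2 h1.2⟩
    obtain ⟨B, hB⟩ := hcomp.exists_bound_of_continuousOn (hAc.mono hsub)
    obtain ⟨t, ht, q, hq⟩ := hunb (max B C)
    obtain ⟨-, s2, s3, -⟩ := hsph t ht q
    have htt : s₁ < t := by
      by_contra hcon
      push Not at hcon
      have h3 := hB (q, t) ⟨mem_univ _, ht.1, hcon⟩
      rw [Real.norm_eq_abs] at h3
      have h4 := (abs_le.1 h3).2
      have h5 : B < hS2 (n := n) F q t := lt_of_le_of_lt (le_max_left _ _) hq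
      change AA (n := n) F q t ≤ B at h4
      linarith
    obtain ⟨hm, -, hq'⟩ := hpt t ht
    obtain ⟨p3, -⟩ := hq' q
    have hτt : τ₁ < sgN n t := by
      rw [← h2]
      exact (sgN_lt n hn1).2 htt
    refine ⟨sgN n t, ⟨hτ₁0.trans hτt, hm.2⟩, lt_of_le_of_lt hτ₀₁ hτt, q, ?_⟩
    have h7 : C < hS2 (n := n) F q t := lt_of_le_of_lt (le_max_right _ _) hq
    have hE0 : 0 < Real.exp (-(2 * n * t)) := Real.exp_pos _
    have hE1 : Real.exp (-(2 * n * t)) ≤ 1 :=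
      Real.exp_le_one_iff.2 (by
        have := mul_nonneg (mul_nonneg zero_le_two hn0.le) ht.1
        linarith)
    have hA0 : 0 ≤ AA (n := n) F q t := by linarith
    have hAle : AA (n := n) F q t ≤ AA (n := n) F q t / Real.exp (-(2 * n * t)) := by
      rw [le_div_iff₀ hE0]
      nlinarith
    rw [p3]
    linarith
  obtain ⟨ts, κ₀, δ, hPD⟩ := hRPD n hn3 cK E D B c hHK M TE (FEN n F) hfl hTE1.le t₁ l₁ ht₁ hl0
    hl1 hRg (Or.inr hUnb)
  obtain ⟨hdiff, xE, G, L, C, α, t', hGc, hGr, hC0, hα0, hα1, ht', hrate⟩ :=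
    hRNT n hn2 (n + 3) M TE (FEN n F) ts κ₀ δ hPD
  have hGn : ∀ q, ‖G q‖ = 1 := by
    intro q
    have h1 : G q ∈ L '' Metric.sphere (0 : EE (n + 1)) 1 := by
      rw [← hGr]
      exact mem_range_self q
    obtain ⟨y, hy, hy2⟩ := h1
    rw [← hy2, L.norm_map]
    simpa using hy
  -- the starting time
  have hτsm : t' ∈ Ico 0 TE := ⟨hPD.ts0.1.le.trans ht'.1, ht'.2⟩
  obtain ⟨hts1, hts2, -⟩ := hC t' hτsm
  rw [hIS] at hts1
  obtain ⟨t₂, ht₂⟩ : ∃ t₂, t₂ = max (tmN n t') (T - 1 / (4 * n)) := ⟨_, rfl⟩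
  have ht₂0 : 0 ≤ t₂ := by rw [ht₂]; exact le_trans hts1.1 (le_max_left _ _)
  have ht₂T : t₂ < T := by
    rw [ht₂]
    have : 0 < 1 / (4 * (n : ℝ)) := by positivity
    exact max_lt hts1.2 (by linarith)
  have hmem : ∀ t ∈ Ico t₂ T, t ∈ Ico 0 T ∧ sgN n t ∈ Ico t' TE ∧ 0 < T - t ∧
      2 * n * (T - t) ≤ 1 / 2 := by
    intro t ht
    have h1 : T - 1 / (4 * n) ≤ t₂ := by rw [ht₂]; exact le_max_right _ _
    have h2 : tmN n t' ≤ t := le_trans (by rw [ht₂]; exact le_max_left _ _) ht.1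
    refine ⟨⟨ht₂0.trans ht.1, ht.2⟩, ⟨?_, by rw [hTE]; exact (sgN_lt n hn1).2 ht.2⟩,
      by linarith [ht.2], ?_⟩
    · rw [← hts2]
      rcases eq_or_lt_of_le h2 with h | h
      · rw [← h]
      · exact ((sgN_lt n hn1).2 h).le
    · have h3 : T - t ≤ 1 / (4 * n) := by linarith [ht.1]
      rw [le_div_iff₀ (by positivity)] at h3
      linarith
  -- the scales
  have hsc : ∀ t ∈ Ico t₂ T, ∃ κ : ℝ, 1 / 2 ≤ κ ∧ κ ≤ 1 ∧
      1 - κ ≤ Real.sqrt (2 * n * (T - t)) ^ 2 ∧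
      Real.sqrt (2 * n * (TE - sgN n t)) =
        Real.exp (-(n * t)) * κ * Real.sqrt (2 * n * (T - t)) ∧
      TE - sgN n t = Real.exp (-(n * t)) ^ 2 * κ ^ 2 * (T - t) := by
    intro t ht
    obtain ⟨h1, h2, h3, h4⟩ := hmem t ht
    have h5 : Real.sqrt (2 * n * (T - t)) ≤ 1 :=
      Real.sqrt_le_iff.2 ⟨zero_le_one, by rw [one_pow]; linarith⟩
    obtain ⟨κ, k0, k1, k2, k3⟩ := kap n hn1 t T h1.2 h5
    rw [← hTE] at k3
    refine ⟨κ, ?_, k1, k2, k3, ?_⟩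
    · rw [Real.sq_sqrt (by positivity)] at k2
      linarith
    · have h6 : 0 ≤ 2 * n * (TE - sgN n t) := by
        have : 0 ≤ TE - sgN n t := by linarith [h2.2]
        positivity
      have h7 : 2 * n * (TE - sgN n t) =
          (Real.exp (-(n * t)) * κ * Real.sqrt (2 * n * (T - t))) ^ 2 := by
        rw [← k3, Real.sq_sqrt h6]
      rw [mul_pow, Real.sq_sqrt (by positivity), mul_pow] at h7
      have h8 : (2 * (n : ℝ)) * (TE - sgN n t) =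
          (2 * n) * (Real.exp (-(n * t)) ^ 2 * κ ^ 2 * (T - t)) := by
        rw [h7]
        ring
      exact mul_left_cancel₀ (by positivity) h8
  have hle : ∀ t ∈ Ico t₂ T, 0 < TE - sgN n t ∧ TE - sgN n t ≤ T - t := by
    intro t ht
    obtain ⟨h1, h2, h3, h4⟩ := hmem t ht
    obtain ⟨κ, k0, k1, k2, k3, k4⟩ := hsc t ht
    refine ⟨by linarith [h2.2], ?_⟩
    rw [k4]
    have hr1 : Real.exp (-(n * t)) ≤ 1 :=
      Real.exp_le_one_iff.2 (by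
        have := mul_nonneg hn0.le h1.1
        linarith)
    have hr0 : 0 < Real.exp (-(n * t)) := Real.exp_pos _
    have h5 : Real.exp (-(n * t)) ^ 2 * κ ^ 2 ≤ 1 := by
      have h6 : Real.exp (-(n * t)) ^ 2 ≤ 1 := pow_le_one₀ hr0.le hr1
      have h7 : κ ^ 2 ≤ 1 := pow_le_one₀ (by linarith) k1
      exact mul_le_one₀ h6 (sq_nonneg _) h7
    calc _ ≤ 1 * (T - t) := mul_le_mul_of_nonneg_right h5 h3.le
      _ = T - t := one_mul _
  -- the norm of the limit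
  have hxn : ‖xE‖ = Real.exp (-(n * T)) := by
    obtain ⟨q⟩ := (inferInstance : Nonempty M)
    have h1 : Tendsto (fun t : ℝ => Real.exp (-(n * t))) (𝓝[<] T)
        (𝓝 (Real.exp (-(n * T)))) := by
      have : Continuous (fun t : ℝ => Real.exp (-(n * t))) := by fun_prop
      exact (this.tendsto T).mono_left nhdsWithin_le_nhds
    have h2 : Tendsto (fun t => C * Real.sqrt (T - t)) (𝓝[<] T) (𝓝 0) := by
      have h3 : Continuous (fun t : ℝ => C * Real.sqrt (T - t)) := by fun_prop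
      have h4 := (h3.tendsto T).mono_left (nhdsWithin_le_nhds (s := Iio T))
      simpa using h4
    have h5 : Tendsto (fun t : ℝ => ‖Real.exp (-(n * t)) • F q t‖) (𝓝[<] T) (𝓝 ‖xE‖) := by
      refine Tendsto.norm ?_
      rw [tendsto_iff_norm_sub_tendsto_zero]
      refine squeeze_zero' (Filter.Eventually.of_forall fun t => norm_nonneg _) ?_ h2
      filter_upwards [Ico_mem_nhdsLT ht₂T] with t ht
      obtain ⟨m1, m2, m3, m4⟩ := hmem t ht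
      have h6 := ((hrate (sgN n t) m2).2 q).1
      rw [(hpt t m1).2.1 q] at h6
      refine h6.trans (mul_le_mul_of_nonneg_left (Real.sqrt_le_sqrt (hle t ht).2) hC0.le)
    have h6 : (fun t : ℝ => Real.exp (-(n * t))) =ᶠ[𝓝[<] T]
        fun t => ‖Real.exp (-(n * t)) • F q t‖ := by
      filter_upwards [Ico_mem_nhdsLT ht₂T] with t ht
      rw [norm_smul, hS.sph q t (hmem t ht).1, mul_one, Real.norm_of_nonneg (Real.exp_pos _).le]
    exact tendsto_nhds_unique h5 (h1.congr' h6)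
  refine ⟨hdiff, Real.exp (n * T) • xE, G, L, 4 * C + 18 * n, min α (1 / 2), t₂, ?_,
    hGc, hGr, lt_min hα0 (by norm_num), ⟨ht₂0, ht₂T⟩, fun t ht => ⟨?_, fun q => ?_⟩⟩
  · rw [norm_smul, hxn, Real.norm_of_nonneg (Real.exp_pos _).le, ← Real.exp_add,
      add_neg_cancel, Real.exp_zero]
  · -- injectivity
    obtain ⟨h1, h2, h3, h4⟩ := hmem t ht
    have hinj := (hrate (sgN n t) h2).1
    intro q q' hqq
    apply hinj
    simp only at hqq ⊢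
    rw [(hpt t h1).2.1 q, (hpt t h1).2.1 q', hqq]
  obtain ⟨h1, h2, h3, h4⟩ := hmem t ht
  obtain ⟨κ, k0, k1, k2, k3, k4⟩ := hsc t ht
  obtain ⟨d1, d2⟩ := hle t ht
  obtain ⟨s1, s2, s3, s4⟩ := hsph t h1 q
  obtain ⟨p1, p2, p3⟩ := (hpt t h1).2.2 q
  obtain ⟨-, r1, r2, r3⟩ := (hrate (sgN n t) h2).2 q
  have hTt1 : T - t ≤ 1 := by nlinarith
  have hσsq : Real.sqrt (2 * n * (T - t)) ^ 2 = 2 * n * (T - t) :=
    Real.sq_sqrt (by positivity)
  have hσ0 : 0 < Real.sqrt (2 * n * (T - t)) := Real.sqrt_pos.2 (by positivity)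
  have hσ1 : Real.sqrt (2 * n * (T - t)) ≤ 1 :=
    Real.sqrt_le_iff.2 ⟨zero_le_one, by rw [one_pow]; linarith⟩
  have hxd := xdiff n t T h1.2.le xE hxn
  -- powers
  obtain ⟨P, hPdef⟩ : ∃ P, P = (T - t) ^ (min α (1 / 2)) := ⟨_, rfl⟩
  have hpa : (TE - sgN n t) ^ α ≤ P := by
    rw [hPdef]
    calc (TE - sgN n t) ^ α ≤ (T - t) ^ α := Real.rpow_le_rpow d1.le d2 hα0.le
      _ ≤ (T - t) ^ (min α (1 / 2)) :=
        Real.rpow_le_rpow_of_exponent_ge h3 hTt1 (min_le_left _ _)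
  have hps : Real.sqrt (T - t) ≤ P := by
    rw [hPdef, Real.sqrt_eq_rpow]
    exact Real.rpow_le_rpow_of_exponent_ge h3 hTt1 (min_le_right _ _)
  have hp1 : T - t ≤ P := by
    rw [hPdef]
    calc T - t = (T - t) ^ (1 : ℝ) := (Real.rpow_one _).symm
      _ ≤ (T - t) ^ (min α (1 / 2)) := Real.rpow_le_rpow_of_exponent_ge h3 hTt1
          ((min_le_right _ _).trans (by norm_num))
  have hP0 : 0 ≤ P := h3.le.trans hp1
  rw [← hPdef]
  obtain ⟨K, hK⟩ : ∃ K, K = C * (TE - sgN n t) ^ α := ⟨_, rfl⟩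
  rw [← hK] at r1 r2 r3
  have hKP : K ≤ C * P := by
    rw [hK]
    exact mul_le_mul_of_nonneg_left hpa hC0.le
  have hK0 : 0 ≤ K := by
    rw [hK]
    exact mul_nonneg hC0.le (Real.rpow_nonneg d1.le _)
  have hCP : 0 ≤ C * P := mul_nonneg hC0.le hP0
  have hnP : 0 ≤ (n : ℝ) * P := mul_nonneg hn0.le hP0
  obtain ⟨r, hr⟩ : ∃ r, r = Real.exp (-(n * t)) := ⟨_, rfl⟩
  have hr0 : 0 < r := by rw [hr]; exact Real.exp_pos _
  have hrr : Real.exp (-(2 * n * t)) = r ^ 2 := by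
    rw [hr, ← Real.exp_nat_mul]
    congr 1
    push_cast
    ring
  rw [hrr] at p1 p2 p3
  rw [← hr] at k3 k4 hxd
  rw [(hpt t h1).2.1 q, ← hr, k3] at r1
  have hth : thN n F q t = hS2 (n := n) F q t - ‖HS (n := n) F q t‖ ^ 2 / n := by
    unfold thN
    rw [s1, s2]
    field_simp
    ring
  have hth0 : 0 ≤ hS2 (n := n) F q t - ‖HS (n := n) F q t‖ ^ 2 / n := by
    rw [sub_nonneg, div_le_iff₀ hn0]
    linarith
  refine ⟨?_, ?_, ?_⟩
  · have h5 := ft3_i (F q t) xE (G q) r (Real.exp (n * T)) κ (Real.sqrt (2 * n * (T - t))) K hr0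
      (by linarith) k1 k2 hσ0 hσ1 hK0 (hGn q) hxd r1
    refine h5.trans ?_
    have h6 : Real.sqrt (2 * n * (T - t)) ≤ 2 * n * P := by
      rw [Real.sqrt_mul (by positivity)]
      have h7 : Real.sqrt (2 * n) ≤ 2 * n :=
        Real.sqrt_le_iff.2 ⟨by positivity, by nlinarith⟩
      calc _ ≤ 2 * n * Real.sqrt (T - t) :=
            mul_le_mul_of_nonneg_right h7 (Real.sqrt_nonneg _)
        _ ≤ 2 * n * P := mul_le_mul_of_nonneg_left hps (by positivity)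
    linarith
  · rw [← hth]
    have h5 : thN n F q t = r ^ 2 * thN n (FEN n F) q (sgN n t) := by
      rw [p3]
      field_simp
    have h6 : 0 ≤ thN n (FEN n F) q (sgN n t) := by
      rw [p3, hth]
      positivity
    rw [h5]
    have h7 := ft3_j (T - t) r κ (TE - sgN n t) _ K h3.le k4 k0 h6 r2
    linarith
  · rw [s1]
    have h5 : ‖HH (n := n) F q t‖ ^ 2 = r ^ 2 * ‖HH (n := n) (FEN n F) q (sgN n t)‖ ^ 2 := by
      rw [p2]
      field_simp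
    rw [h5]
    have h7 := ft3_k n (T - t) r κ (Real.sqrt (2 * n * (T - t))) (TE - sgN n t) _ K hn0 hσsq k4
      k0 k1 k2 r3
    refine h7.trans ?_
    rw [hσsq]
    have h8 : n * (T - t) ≤ n * P := mul_le_mul_of_nonneg_left hp1 hn0.le
    linarith

end Helper29.HC
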